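import Pool.Agent.Helper10.GO.GoalsP

/-!
# Project GO, packet PDV: prime divisors of the values of a polynomial
-/

set_option autoImplicit false

namespace Pool.Agent.Helper31.GO

open Pool.Agent.Helper10.GO Polynomial

theorem pdv : S_PDV := by
  intro P hP n
  by_cases hc : P.eval 0 = 0
  · obtain ⟨p, hp1, hp2⟩ := Nat.exists_infinite_primes (n + 1)
    exact ⟨p, hp2, by omega, 0, by rw [hc]; exact dvd_zero _⟩
  · obtain ⟨c, hc'⟩ : ∃ c : ℤ, c = P.eval 0 := ⟨_, rfl⟩
    rw [← hc'] at hc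
    have hfac : ((n.factorial : ℕ) : ℤ) ≠ 0 := by exact_mod_cast (Nat.factorial_pos n).ne'
    have hm : c * ((n.factorial : ℕ) : ℤ) ≠ 0 := mul_ne_zero hc hfac
    have hne : ∀ d : ℤ, P - C d ≠ 0 := by
      intro d h
      have h1 : P = C d := sub_eq_zero.1 h
      rw [h1, natDegree_C] at hP
      exact lt_irrefl _ hP
    have hR : (P - C 0) * ((P - C c) * (P - C (-c))) ≠ 0 :=
      mul_ne_zero (hne 0) (mul_ne_zero (hne c) (hne (-c)))
    have hfin : {k : ℤ | ((P - C 0) * ((P - C c) * (P - C (-c)))).IsRoot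
        (c * ((n.factorial : ℕ) : ℤ) * k)}.Finite := by
      refine Set.Finite.preimage ?_ (finite_setOfPred_isRoot hR)
      intro a _ b _ h
      exact mul_left_cancel₀ hm h
    obtain ⟨k, hk⟩ := hfin.exists_notMem
    have hk0 : ¬((P - C 0) * ((P - C c) * (P - C (-c)))).IsRoot
        (c * ((n.factorial : ℕ) : ℤ) * k) := hk
    have h0 : P.eval (c * ((n.factorial : ℕ) : ℤ) * k) ≠ 0 := by
      intro h
      apply hk0
      simp [IsRoot.def, h]
    have h1 : P.eval (c * ((n.factorial : ℕ) : ℤ) * k) ≠ c := by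
      intro h
      apply hk0
      simp [IsRoot.def, h]
    have h2 : P.eval (c * ((n.factorial : ℕ) : ℤ) * k) ≠ -c := by
      intro h
      apply hk0
      simp [IsRoot.def, h]
    have hd : c * ((n.factorial : ℕ) : ℤ) * k - 0 ∣
        P.eval (c * ((n.factorial : ℕ) : ℤ) * k) - P.eval 0 := sub_dvd_eval_sub _ _ _
    rw [sub_zero, ← hc'] at hd
    obtain ⟨q, hq⟩ := hd
    have hval : P.eval (c * ((n.factorial : ℕ) : ℤ) * k) =
        c * (1 + ((n.factorial : ℕ) : ℤ) * (k * q)) := by linarith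
    rw [hval] at h0 h1 h2
    obtain ⟨u, hu⟩ : ∃ u : ℤ, u = 1 + ((n.factorial : ℕ) : ℤ) * (k * q) := ⟨_, rfl⟩
    rw [← hu] at h0 h1 h2 hval
    have hu1 : u.natAbs ≠ 1 := by
      intro h
      rcases Int.natAbs_eq_iff.1 h with h3 | h3
      · apply h1
        rw [h3]
        simp
      · apply h2
        rw [h3]
        simp
    obtain ⟨p, hp, hpu⟩ := Nat.exists_prime_and_dvd hu1
    have hpu' : (p : ℤ) ∣ u := Int.natCast_dvd.2 hpu
    refine ⟨p, hp, ?_, c * ((n.factorial : ℕ) : ℤ) * k, ?_⟩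
    · by_contra hpn
      push Not at hpn
      have h3 : (p : ℤ) ∣ ((n.factorial : ℕ) : ℤ) := by
        exact_mod_cast (hp.dvd_factorial).2 hpn
      have h4 : (p : ℤ) ∣ 1 := by
        have h5 : (1 : ℤ) = u - ((n.factorial : ℕ) : ℤ) * (k * q) := by rw [hu]; ring
        rw [h5]
        exact dvd_sub hpu' (Dvd.dvd.mul_right h3 _)
      have h6 : p ∣ 1 := by exact_mod_cast h4
      exact hp.one_lt.ne' (Nat.dvd_one.1 h6)
    · rw [hval]
      exact Dvd.dvd.mul_left hpu' c

end Pool.Agent.Helper31.GO
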